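import Pool.Agent.H27.L1.H34.GA.Targets1
import Pool.Agent.H27.L1.H19.GZ.LBas

/-!
Row ADR of the board ga (page H34_GA.md): the pointwise identity (helper55). Model:
Pool/Agent/H63/GU/ADQ.lean (helper63).
-/

set_option autoImplicit false

open MeasureTheory Pool.Agent.H27.L1.H34.GM Pool.Agent.H27.L1.H34.GZ Pool.Agent.H27.L1.H34.GU Pool.Agent.H27.L1.H34.GA

namespace Pool.Agent.H27.L1.H55.GA

lemma cR_mul {m : ℕ} (α β : ZM m) : cR (α * β) = cR α * cR β := by
  unfold cR
  exact Matrix.map_mul (f := Int.castRingHom ℝ)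

lemma cR_det {m : ℕ} (α : ZM m) : (cR α).det = ((α.det : ℤ) : ℝ) := by
  unfold cR
  exact (RingHom.map_det (Int.castRingHom ℝ) α).symm

lemma cR_det_abs {m : ℕ} (α : ZM m) : |(cR α).det| = (α.det.natAbs : ℝ) := by
  rw [cR_det, Nat.cast_natAbs, Int.cast_abs]

/-- finitely many terms -/
lemma fin_supp {m : ℕ} {Φ : Mat m → ℂ} (hΦ : Tg m Φ) (g h : Mat m) (hg : g.det ≠ 0)
    (hh : h.det ≠ 0) {r : ℝ} (hr : 0 < r) :
    {α : ZM m | Φ (kk r h (cR α) g) ≠ 0}.Finite := by
  obtain ⟨c0, hc0, hs⟩ := hΦ.supp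
  have hah := H19.GZ.aN_pos h hh
  have hag := H19.GZ.aN_pos g hg
  obtain ⟨c, hc⟩ : ∃ c, c = r⁻¹ * aN h / aN g := ⟨_, rfl⟩
  have hcp : 0 < c := by rw [hc]; positivity
  obtain ⟨B, hB⟩ : ∃ B, B = c⁻¹ * (m * (m * (sz h * c0) * sz g⁻¹)) := ⟨_, rfl⟩
  apply Set.Finite.subset (Set.finite_Icc (fun _ _ => -(⌈B⌉ : ℤ) : Fin m → Fin m → ℤ)
    (fun _ _ => (⌈B⌉ : ℤ)))
  intro (α : ZM m) hα
  have hv := (hs _ hα).1
  obtain ⟨G, hG⟩ : ∃ G, G = cR α := ⟨_, rfl⟩
  rw [← hG] at hv
  obtain ⟨v, hvd⟩ : ∃ v, v = kk r h G g := ⟨_, rfl⟩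
  rw [← hvd] at hv
  have hve : v = c • (h⁻¹ * G * g) := by rw [hvd, H19.GZ.kk_apply, hc]
  have hhi : h * h⁻¹ = 1 := Matrix.mul_nonsing_inv h (isUnit_iff_ne_zero.mpr hh)
  have hgi : g * g⁻¹ = 1 := Matrix.mul_nonsing_inv g (isUnit_iff_ne_zero.mpr hg)
  have e1 : h * v * g⁻¹ = c • G := by
    rw [hve, Matrix.mul_smul, Matrix.smul_mul, Matrix.mul_assoc h⁻¹ G g, ← Matrix.mul_assoc h,
      hhi, Matrix.one_mul, Matrix.mul_assoc, hgi, Matrix.mul_one]
  have e2 : G = c⁻¹ • (h * v * g⁻¹) := by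
    rw [e1, smul_smul, inv_mul_cancel₀ hcp.ne', one_smul]
  have hbd : ∀ i j, |G i j| ≤ B := by
    intro i j
    rw [e2, Matrix.smul_apply, smul_eq_mul, abs_mul, abs_of_pos (inv_pos.mpr hcp), hB]
    have h7 : ∀ i j, |(h * v) i j| ≤ m * (sz h * c0) :=
      H19.GZ.mul_bd h v (H19.GZ.sz_nonneg h) (H19.GZ.abs_le_sz h)
        fun i j => (H19.GZ.abs_le_sz v i j).trans hv
    have h8 := H19.GZ.mul_bd (h * v) g⁻¹ (mul_nonneg (Nat.cast_nonneg m)
      (mul_nonneg (H19.GZ.sz_nonneg h) hc0.le)) h7 (H19.GZ.abs_le_sz g⁻¹) i j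
    exact mul_le_mul_of_nonneg_left h8 (inv_pos.mpr hcp).le
  have hint : ∀ i j, |α i j| ≤ ⌈B⌉ := by
    intro i j
    have h10 : ((|α i j| : ℤ) : ℝ) ≤ B := by
      have := hbd i j
      rw [hG] at this
      unfold cR at this
      rw [Matrix.map_apply] at this
      rw [Int.cast_abs]
      exact this
    have h11 : ((|α i j| : ℤ) : ℝ) ≤ (⌈B⌉ : ℤ) := h10.trans (Int.le_ceil B)
    exact_mod_cast h11
  constructor
  · intro i j
    exact (abs_le.mp (hint i j)).1
  · intro i j
    exact (abs_le.mp (hint i j)).2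

/-- the argument of the kernel for a product -/
lemma kk_fr {m N : ℕ} (hm : 1 ≤ m) (hN : 1 ≤ N) (Hv : ZM m)
    (hd : Hv.det.natAbs = N ^ (m - 1)) (g h : Mat m) (hg : g.det ≠ 0) (hh : h.det ≠ 0) {r : ℝ}
    (hr : 0 < r) (φ : ZM m) :
    kk ((N : ℝ) / r) g (cR (φ * Hv)) h = kk (kp m N / r) g (cR φ) (cR Hv * h) := by
  have hah := H19.GZ.aN_pos h hh
  have hN0 : (0 : ℝ) < N := by
    have : 0 < N := by omega
    exact_mod_cast this
  have hm0 : (m : ℝ) ≠ 0 := by
    have : m ≠ 0 := by omega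
    exact_mod_cast this
  have hk : 0 < kp m N := Real.rpow_pos_of_pos hN0 _
  have e1 : kp m N * aN (cR Hv * h) = N * aN h := by
    unfold kp aN
    rw [Matrix.det_mul, abs_mul, cR_det_abs, hd, Real.mul_rpow (by positivity) (abs_nonneg _),
      ← mul_assoc, ← Real.mul_rpow hN0.le (by positivity)]
    have h2 : (N : ℝ) * ((N ^ (m - 1) : ℕ) : ℝ) = (N : ℝ) ^ m := by
      push_cast
      rw [← pow_succ', Nat.sub_add_cancel hm]
    rw [h2, one_div, Real.pow_rpow_inv_natCast hN0.le (by omega)]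
  have e2 : 0 < aN (cR Hv * h) := by
    have : 0 < kp m N * aN (cR Hv * h) := by rw [e1]; positivity
    exact pos_of_mul_pos_right this hk.le
  rw [H19.GZ.kk_apply, H19.GZ.kk_apply, cR_mul]
  have e3 : ((N : ℝ) / r)⁻¹ * aN g / aN h = (kp m N / r)⁻¹ * aN g / aN (cR Hv * h) := by
    rw [inv_div, inv_div]
    have h3 : r / N * aN g / aN h = r * aN g / (N * aN h) := by
      field_simp
    have h4 : r / kp m N * aN g / aN (cR Hv * h) = r * aN g / (kp m N * aN (cR Hv * h)) := by
      field_simp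
    rw [h3, h4, e1]
  rw [e3]
  congr 1
  rw [← Matrix.mul_assoc, ← Matrix.mul_assoc]

lemma vmv_inj {m N : ℕ} {x x' v : VN m N} (hv : Pr v)
    (h : Matrix.vecMulVec x v = Matrix.vecMulVec x' v) : x = x' := by
  obtain ⟨u, hu⟩ := hv
  have key : ∀ z : VN m N, (Matrix.vecMulVec z v).mulVec u = z := by
    intro z
    funext i
    unfold dt at hu
    rw [Matrix.mulVec, dotProduct]
    simp only [Matrix.vecMulVec_apply]
    calc ∑ j, z i * v j * u j = z i * ∑ j, u j * v j := by
          rw [Finset.mul_sum]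
          exact Finset.sum_congr rfl fun j _ => by ring
      _ = z i := by rw [hu, mul_one]
  rw [← key x, ← key x', h]

lemma cQ_mul {m : ℕ} (N : ℕ) (α β : ZM m) : cQ N (α * β) = cQ N α * cQ N β := by
  unfold cQ
  exact Matrix.map_mul (f := Int.castRingHom (ZMod N))

lemma cQ_frk {m N : ℕ} {H : VN m N → ZM m} {xv : VN m N → VN m N} (hF : Frk m N H xv)
    {v : VN m N} (hv : Pr v) (φ : ZM m) :
    cQ N (φ * H v) = Matrix.vecMulVec (ac N φ (xv v)) v := by
  rw [cQ_mul, hF.red v hv]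
  ext i j
  unfold ac
  rw [Matrix.mul_apply, Matrix.vecMulVec_apply, Matrix.mulVec, dotProduct, Finset.sum_mul]
  apply Finset.sum_congr rfl
  intro l _
  rw [Matrix.vecMulVec_apply, mul_assoc]

open Classical in
theorem pf_ADR (hPOU : T_POV) (hPOZ : T_POA) : T_ADR := by
  intro m N _ hm hN Φ hΦ H xv hF f f' hf hf' hft g h r hg hh hr
  have hN0 : (0 : ℝ) < N := by
    have : 0 < N := by omega
    exact_mod_cast this
  obtain ⟨A, hA⟩ : ∃ A : ℂ, A = ((r ^ (m ^ 2) / (N : ℝ) ^ m : ℝ) : ℂ) := ⟨_, rfl⟩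
  rw [← hA]
  -- the dual sums
  obtain ⟨P, hP⟩ : ∃ P : VN m N → VN m N → ℂ, P = fun x v => ∑' β : ZM m,
      if cQ N β = Matrix.vecMulVec x v then ft Φ (kk ((N : ℝ) / r) g (cR β) h) else 0 := ⟨_, rfl⟩
  have hsum : Summable fun β : ZM m => ft Φ (kk ((N : ℝ) / r) g (cR β) h) :=
    ((hPOZ m N hm hN Φ hΦ g h r 0 hg hh hr).1).of_norm
  -- first step
  have h1 : ∀ x : VN m N, (∑' α : ZM m, Φ (kk r h (cR α) g) * f (ac N α x)) *
      (starRingEnd ℂ) (f' x) =
      A * ∑ v : VN m N, (∑ y, psn N (dt v y) * f y) * (P x v * (starRingEnd ℂ) (f' x)) := by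
    intro x
    by_cases hx : Pr x
    swap
    · rw [hf' x hx, map_zero, mul_zero]
      simp
    have hfin := fin_supp hΦ.toTg g h hg hh hr
    have h2 : ∑' α : ZM m, Φ (kk r h (cR α) g) * f (ac N α x) =
        ∑ y, f y * ∑' α : ZM m, (if ac N α x = y then Φ (kk r h (cR α) g) else 0) := by
      have h3 : ∀ α : ZM m, Φ (kk r h (cR α) g) * f (ac N α x) =
          ∑ y, f y * (if ac N α x = y then Φ (kk r h (cR α) g) else 0) := by
        intro α
        rw [Finset.sum_eq_single (ac N α x)]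
        · rw [if_pos rfl, mul_comm]
        · intro y _ hy
          rw [if_neg (fun e => hy e.symm), mul_zero]
        · intro h4
          exact absurd (Finset.mem_univ _) h4
      rw [tsum_congr h3, Summable.tsum_finsetSum]
      · apply Finset.sum_congr rfl
        intro y _
        rw [tsum_mul_left]
      · intro y _
        apply summable_of_hasFiniteSupport
        apply hfin.subset
        intro α hα
        rw [Function.mem_support] at hα
        intro h5
        apply hα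
        rw [h5, ite_self, mul_zero]
    rw [h2]
    have h6 : ∀ y, ∑' α : ZM m, (if ac N α x = y then Φ (kk r h (cR α) g) else 0) =
        A * ∑ v : VN m N, psn N (dt v y) * P x v := by
      intro y
      rw [hPOU m N hm hN Φ hΦ g h r x y hg hh hr hx, hA, hP]
    simp only [h6]
    have h7 : ∑ y, f y * (A * ∑ v : VN m N, psn N (dt v y) * P x v) =
        A * ∑ v : VN m N, (∑ y, psn N (dt v y) * f y) * P x v := by
      simp only [Finset.mul_sum, Finset.sum_mul]
      rw [Finset.sum_comm]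
      apply Finset.sum_congr rfl
      intro v _
      apply Finset.sum_congr rfl
      intro y _
      ring
    rw [h7, mul_assoc, Finset.sum_mul]
    congr 1
    apply Finset.sum_congr rfl
    intro v _
    ring
  simp only [h1]
  rw [← Finset.mul_sum, Finset.sum_comm]
  congr 1
  apply Finset.sum_congr rfl
  intro v _
  rw [← Finset.mul_sum]
  by_cases hv : Pr v
  swap
  · rw [if_neg hv, hft v hv, zero_mul]
  rw [if_pos hv]
  congr 1
  -- the bijection
  have hdet : (H v).det ≠ 0 := by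
    intro h0
    have := hF.det v hv
    rw [h0, Int.natAbs_zero] at this
    have h2 : 0 < N ^ (m - 1) := Nat.pow_pos (by omega)
    omega
  have hinj : Function.Injective (fun φ : ZM m => φ * H v) := by
    intro φ φ' he
    have h2 : φ * H v = φ' * H v := he
    have h3 : (φ - φ') * H v = 0 := by rw [Matrix.sub_mul, h2, sub_self]
    have h4 : (φ - φ') * (H v * (H v).adjugate) = 0 := by
      rw [← Matrix.mul_assoc, h3, Matrix.zero_mul]
    rw [Matrix.mul_adjugate, Matrix.mul_smul, Matrix.mul_one] at h4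
    have h5 : φ - φ' = 0 := by
      ext i j
      have h6 := congrFun (congrFun h4 i) j
      rw [Matrix.smul_apply, smul_eq_mul, Matrix.zero_apply] at h6
      exact (mul_eq_zero.mp h6).resolve_left hdet
    exact sub_eq_zero.mp h5
  have h8 : ∑ x, P x v * (starRingEnd ℂ) (f' x) = ∑' β : ZM m, ∑ x,
      (if cQ N β = Matrix.vecMulVec x v then ft Φ (kk ((N : ℝ) / r) g (cR β) h) else 0) *
        (starRingEnd ℂ) (f' x) := by
    rw [Summable.tsum_finsetSum]
    · apply Finset.sum_congr rfl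
      intro x _
      rw [tsum_mul_right, hP]
    · intro x _
      apply Summable.mul_right
      apply Summable.of_norm_bounded hsum.norm
      intro β
      split_ifs
      · exact le_refl _
      · rw [norm_zero]
        exact norm_nonneg _
  rw [h8]
  have h9 : Function.support (fun β : ZM m => ∑ x,
      (if cQ N β = Matrix.vecMulVec x v then ft Φ (kk ((N : ℝ) / r) g (cR β) h) else 0) *
        (starRingEnd ℂ) (f' x)) ⊆ Set.range (fun φ : ZM m => φ * H v) := by
    intro β hβ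
    rw [Function.mem_support] at hβ
    obtain ⟨x, _, hx⟩ := Finset.exists_ne_zero_of_sum_ne_zero hβ
    have h10 : cQ N β = Matrix.vecMulVec x v := by
      by_contra h11
      apply hx
      rw [if_neg h11, zero_mul]
    obtain ⟨φ, h12, -⟩ := hF.dvd v hv β x h10
    exact ⟨φ, h12.symm⟩
  rw [← hinj.tsum_eq h9]
  apply tsum_congr
  intro φ
  rw [Finset.sum_eq_single (ac N φ (xv v))]
  · rw [if_pos (cQ_frk hF hv φ), kk_fr hm hN (H v) (hF.det v hv) g h hg hh hr φ]
  · intro x _ hx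
    rw [if_neg, zero_mul]
    intro h13
    apply hx
    rw [cQ_frk hF hv φ] at h13
    exact (vmv_inj hv h13).symm
  · intro h14
    exact absurd (Finset.mem_univ _) h14

end Pool.Agent.H27.L1.H55.GA
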