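import Pool.Agent.H27.L1.H34.GA.Targets1
import Pool.Agent.H27.L1.H34.GM.EG1

/-!
Row EZA of the board ga (page H34_GA.md): one double coset (helper55).
-/

set_option autoImplicit false

namespace Pool.Agent.H27.L1.H55.GA

open MeasureTheory Set Filter Topology
open Pool.Agent.H27.L1.H34.GM Pool.Agent.H27.L1.H34.GZ Pool.Agent.H27.L1.H34.GU Pool.Agent.H27.L1.H34.GA

theorem tg_bd {m : ℕ} {Φ : Mat m → ℂ} (h : Tg m Φ) : ∃ M : ℝ, 0 ≤ M ∧ ∀ z, ‖Φ z‖ ≤ M := by
  obtain ⟨c, hc, hs⟩ := h.supp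
  have h1 : ContinuousOn (fun z : V m => Φ (mt z)) (Metric.closedBall 0 c) :=
    (h.cont.comp th1_cmt).continuousOn
  obtain ⟨M, hM⟩ := (isCompact_closedBall (0 : V m) c).exists_bound_of_continuousOn h1
  refine ⟨max M 0, le_max_right _ _, fun z => ?_⟩
  by_cases hz : Φ z = 0
  · rw [hz, norm_zero]
    exact le_max_right _ _
  · have h2 : ((fun i j => z i j) : V m) ∈ Metric.closedBall (0 : V m) c := by
      rw [mem_closedBall_zero_iff]
      exact (hs z hz).1
    exact (hM _ h2).trans (le_max_left _ _)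

theorem tg_phi0 {m : ℕ} (hm1 : 1 ≤ m) {Φ : Mat m → ℂ} (h : Tg m Φ) : Φ 0 = 0 := by
  obtain ⟨c, hc, hs⟩ := h.supp
  by_contra h1
  have h2 := (hs 0 h1).2
  have : Nonempty (Fin m) := ⟨⟨0, by omega⟩⟩
  rw [Matrix.det_zero, abs_zero] at h2
  exact absurd h2 (not_le.2 (inv_pos.2 hc))

/-- the right translates of a form composed with the inverse are continuous -/
theorem cont_inv {m N : ℕ} {F : Mat m → VN m N → ℂ}
    (hF : ∀ x, ContinuousOn (fun g => F g x) {g | g.det ≠ 0}) {G : Mat m} (hG : G.det ≠ 0)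
    (y : VN m N) : ContinuousOn (fun z : V m => F (G * (mt z)⁻¹) y) {z | (mt z).det ≠ 0} := by
  have h1 : ContinuousOn (fun z : V m => G * (mt z)⁻¹) {z | (mt z).det ≠ 0} := by
    intro z hz
    have hd : (mt z).det ≠ 0 := hz
    have h2 : ContinuousAt (fun z : Mat m => z⁻¹) (mt z) := by
      apply continuousAt_matrix_inv
      rw [Ring.inverse_eq_inv']
      exact continuousAt_inv₀ hd
    have h3 : ContinuousAt (fun z : V m => (mt z)⁻¹) z :=
      ContinuousAt.comp (g := fun z : Mat m => z⁻¹) (f := fun z : V m => mt z) h2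
        th1_cmt.continuousAt
    have h4 : Continuous (fun w : Mat m => G * w) := by fun_prop
    exact (h4.continuousAt.comp h3).continuousWithinAt
  refine (hF y).comp h1 fun z hz => ?_
  show (G * (mt z)⁻¹).det ≠ 0
  rw [Matrix.det_mul, Matrix.det_nonsing_inv, Ring.inverse_eq_inv']
  exact mul_ne_zero hG (inv_ne_zero hz)

/-- the integrand of the convolution on the shell -/
theorem rr_int (hM : T_MSR) (hH : T_HAR) {m N : ℕ} (hm1 : 1 ≤ m) {F : Mat m → VN m N → ℂ}
    (hF : ∀ x, ContinuousOn (fun g => F g x) {g | g.det ≠ 0}) {Φ : Mat m → ℂ} (hΦ : Tg m Φ)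
    {s : ℝ} (hs0 : 0 < s) {G : Mat m} (hG : G.det ≠ 0) (y : VN m N) :
    IntegrableOn (fun z : V m => Φ ((s * (aN (mt z))⁻¹) • mt z) * F (G * (mt z)⁻¹) y)
      (Shell m) (hm m) := by
  obtain ⟨-, -, -, -, -, hSh, -, -⟩ := hM.1 m
  obtain ⟨c, hc, hs⟩ := hΦ.supp
  obtain ⟨M, hM0, hMb⟩ := tg_bd hΦ
  have hSd : Shell m ⊆ {z | (mt z).det ≠ 0} := fun z hz => th1_det_ne hm1 hz
  set c1 : ℝ := max 1 (s⁻¹ * Real.exp 1 * c) with hc1
  have hc1p : 0 < c1 := lt_of_lt_of_le one_pos (le_max_left _ _)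
  obtain ⟨P, hP0, hPb⟩ := eg1_bdK (cont_inv hF hG y) hc1p
  refine eg1_int hM hH hm1 (M := M) (P := P) (c := c1) hM0 hP0 hc1p
    (th1_meas hM hΦ.cont s).aestronglyMeasurable
    (((cont_inv hF hG y).mono hSd).aestronglyMeasurable hSh)
    (fun z => hMb _) hPb ?_
  intro z hz hne
  have haz : 0 < aN (mt z) := lt_of_lt_of_le one_pos hz.1
  have h5 := (hs _ hne).1
  rw [th1_szsmul, abs_of_pos (by positivity)] at h5
  constructor
  · refine le_trans ?_ (le_max_right _ _)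
    have h6 : sz (mt z) = s⁻¹ * aN (mt z) * (s * (aN (mt z))⁻¹ * sz (mt z)) := by
      field_simp
    rw [h6]
    have h7 : s⁻¹ * aN (mt z) ≤ s⁻¹ * Real.exp 1 :=
      mul_le_mul_of_nonneg_left hz.2.le (by positivity)
    exact mul_le_mul h7 h5 (mul_nonneg (by positivity) (norm_nonneg _)) (by positivity)
  · rw [← th1_aN_pow hm1]
    exact (inv_le_one_of_one_le₀ (le_max_left _ _)).trans (one_le_pow₀ hz.1)

theorem pf_EZA : T_MSR → T_HAR → T_HAC → T_PLC → T_EZA := by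
  intro hM hH hHC hPL m q _ T D hS F lam hF Φ hΦ ρ g r y hρ hg hr
  have hm1 := hS.one_le
  obtain ⟨-, -, -, -, -, hSh, -, -⟩ := hM.1 m
  obtain ⟨c, hc, hs⟩ := hΦ.supp
  obtain ⟨M, hM0, hMb⟩ := tg_bd hΦ
  set G : Mat m := ρ * g with hG
  have hGd : G.det ≠ 0 := by
    rw [hG, Matrix.det_mul]
    exact mul_ne_zero hρ hg
  have haρ := eg1_pos hρ
  have hag := eg1_pos hg
  have haG := eg1_pos hGd
  set s : ℝ := (r * (aN ρ)⁻¹)⁻¹ with hsdef
  have hs0 : 0 < s := by positivity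
  have hΦ0 := tg_phi0 hm1 hΦ
  -- the function
  set f : V m → ℂ := fun z => Φ (kk r (mt z) ρ g) * F (mt z) y with hf
  have hSd : Shell m ⊆ {z | (mt z).det ≠ 0} := fun z hz => th1_det_ne hm1 hz
  have hFc : ContinuousOn (fun z : V m => F (mt z) y) {z | (mt z).det ≠ 0} :=
    (hF.cont y).comp th1_cmt.continuousOn (fun z hz => hz)
  have hfS : IntegrableOn f (Shell m) (hm m) := by
    obtain ⟨P1, hP10, hP1⟩ := eg1_binv G hc
    set c1 : ℝ := max 1 (r⁻¹ * Real.exp 1 / aN g * P1) with hc1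
    have hc1p : 0 < c1 := lt_of_lt_of_le one_pos (le_max_left _ _)
    obtain ⟨P, hP0, hPb⟩ := eg1_bdK hFc hc1p
    refine eg1_int hM hH hm1 (M := M) (P := P) (c := c1) hM0 hP0 hc1p ?_
      ((hFc.mono hSd).aestronglyMeasurable hSh) (fun z => hMb _) hPb ?_
    · exact (eg1_meas hM hΦ.cont r ρ g).aestronglyMeasurable
    · intro z hz hne
      have hd := th1_det_ne hm1 hz
      have haz := eg1_pos hd
      obtain ⟨h2, h3⟩ := hs _ hne
      have h4 := hP1 _ h2 h3
      have hlam : r⁻¹ * aN (mt z) / aN g ≠ 0 := by positivity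
      have h5 : kk r (mt z) ρ g = (r⁻¹ * aN (mt z) / aN g) • ((mt z)⁻¹ * G) := by
        unfold kk
        rw [Matrix.mul_assoc]
      have h6 : ((mt z)⁻¹ * G).det ≠ 0 := by
        rw [Matrix.det_mul, Matrix.det_nonsing_inv, Ring.inverse_eq_inv']
        exact mul_ne_zero (inv_ne_zero hd) hGd
      have h7 : mt z = (r⁻¹ * aN (mt z) / aN g) • (G * (kk r (mt z) ρ g)⁻¹) := by
        rw [h5, eg1_inv_smul hlam h6, Matrix.mul_inv_rev, Matrix.nonsing_inv_nonsing_inv _
          (isUnit_iff_ne_zero.2 hd), Matrix.mul_smul, smul_smul, mul_inv_cancel₀ hlam, one_smul,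
          ← Matrix.mul_assoc, Matrix.mul_nonsing_inv _ (isUnit_iff_ne_zero.2 hGd),
          Matrix.one_mul]
      constructor
      · rw [h7, th1_szsmul, abs_of_pos (by positivity)]
        refine le_trans ?_ (le_max_right _ _)
        refine mul_le_mul ?_ h4 (norm_nonneg _) (by positivity)
        have := hz.2.le
        gcongr
      · rw [← th1_aN_pow hm1]
        exact (inv_le_one_of_one_le₀ (le_max_left _ _)).trans (one_le_pow₀ hz.1)
  refine ⟨hfS, ?_⟩
  -- scale invariance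
  have hfsc : ∀ c : ℝ, 0 < c → ∀ z, f (c • z) = f z := by
    intro c hc z
    have e0 : mt (c • z) = c • mt z := rfl
    simp only [hf]
    rw [e0]
    by_cases hd : (mt z).det = 0
    · rw [eg1_kk0 r hd, eg1_kk0 r (by rw [Matrix.det_smul, hd, mul_zero]), hΦ0, zero_mul,
        zero_mul]
    · rw [hF.scal c hc _ _ hd]
      congr 2
      unfold kk
      rw [eg1_inv_smul hc.ne' hd, eg1_smul hm1 hc, Matrix.smul_mul, Matrix.smul_mul, smul_smul]
      congr 1
      field_simp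
  obtain ⟨η, hη⟩ := eg1_ex
  have hη' := eg1_inv hη haG
  have h1 := ((hPL m hm1).2 f (fun t => η (aN G / t)) hη'.1 hη'.2.1 hη'.2.2 hfS hfsc).2
  rw [h1]
  -- the test function
  set k : Mat m → ℂ := fun w => Φ ((s * (aN w)⁻¹) • w) * (η (aN w) : ℂ) with hk
  have hk0 : k 0 = 0 := by
    simp only [hk]
    rw [smul_zero, hΦ0, zero_mul]
  have h3 : ∫ z, f z * ((fun t => η (aN G / t)) (aN (mt z)) : ℂ) ∂(hm m) =
      ∫ z, k (mt z) * F (G * (mt z)⁻¹) y ∂(hm m) := by
    have e1 := ((hHC m hm1).1 G hGd (fun z : V m => k (mt z) * F (G * (mt z)⁻¹) y)).2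
    have e2 := (hHC m hm1).2 (fun z : V m => (fun z : V m => k (mt z) * F (G * (mt z)⁻¹) y)
      (fun i j => (mt z * G) i j))
    rw [← e1, ← e2]
    apply integral_congr_ae
    refine Filter.Eventually.of_forall fun z => ?_
    have e3 : mt ((fun i j => (mt ((fun i j => ((mt z)⁻¹) i j) : V m) * G) i j) : V m) =
        (mt z)⁻¹ * G := rfl
    show f z * ((η (aN G / aN (mt z)) : ℝ) : ℂ) =
      k (mt ((fun i j => (mt ((fun i j => ((mt z)⁻¹) i j) : V m) * G) i j) : V m)) *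
      F (G * (mt ((fun i j => (mt ((fun i j => ((mt z)⁻¹) i j) : V m) * G) i j) : V m))⁻¹) y
    rw [e3]
    by_cases hd : (mt z).det = 0
    · rw [Matrix.nonsing_inv_apply_not_isUnit (mt z) (by rw [hd]; exact not_isUnit_zero),
        Matrix.zero_mul, hk0, zero_mul]
      simp only [hf]
      rw [eg1_kk0 r hd, hΦ0, zero_mul, zero_mul]
    · have e4 : G * ((mt z)⁻¹ * G)⁻¹ = mt z := by
        rw [Matrix.mul_inv_rev, Matrix.nonsing_inv_nonsing_inv _ (isUnit_iff_ne_zero.2 hd),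
          ← Matrix.mul_assoc, Matrix.mul_nonsing_inv _ (isUnit_iff_ne_zero.2 hGd),
          Matrix.one_mul]
      rw [e4]
      simp only [hf, hk]
      rw [eg1_kk r hρ hg hd, ← hG, ← hsdef]
      have e5 : aN G / aN (mt z) = aN ((mt z)⁻¹ * G) := by
        rw [eg1_mul (mt z)⁻¹ G, eg1_ainv hd, div_eq_inv_mul]
      rw [e5]
      ring
  rw [h3]
  -- back to the shell
  set f2 : V m → ℂ := fun z => Φ ((s * (aN (mt z))⁻¹) • mt z) * F (G * (mt z)⁻¹) y with hf2
  have hf2S : IntegrableOn f2 (Shell m) (hm m) := rr_int hM hH hm1 hF.cont hΦ hs0 hGd y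
  have hf2sc : ∀ c : ℝ, 0 < c → ∀ z, f2 (c • z) = f2 z := by
    intro c hc z
    have e0 : mt (c • z) = c • mt z := rfl
    simp only [hf2]
    rw [e0]
    by_cases hd : (mt z).det = 0
    · rw [eg1_zero hm1 hd, eg1_zero hm1 (z := c • mt z) (by
        rw [Matrix.det_smul, hd, mul_zero]), inv_zero, mul_zero, zero_smul, zero_smul, hΦ0,
        zero_mul, zero_mul]
    · have hGz : (G * (mt z)⁻¹).det ≠ 0 := by
        rw [Matrix.det_mul, Matrix.det_nonsing_inv, Ring.inverse_eq_inv']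
        exact mul_ne_zero hGd (inv_ne_zero hd)
      rw [eg1_inv_smul hc.ne' hd, Matrix.mul_smul, hF.scal c⁻¹ (inv_pos.2 hc) _ _ hGz]
      congr 2
      rw [eg1_smul hm1 hc, smul_smul]
      congr 1
      have := (eg1_pos hd).ne'
      field_simp
  have h5 := ((hPL m hm1).2 f2 η hη.1 hη.2.1 hη.2.2 hf2S hf2sc).2
  unfold Rr
  show _ = ∫ z in Shell m, f2 z ∂(hm m)
  rw [h5]
  apply integral_congr_ae
  refine Filter.Eventually.of_forall fun z => ?_
  simp only [hk, hf2]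
  ring

end Pool.Agent.H27.L1.H55.GA
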